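import Mathlib

namespace Pool.Agent.Results.MP_d643ae_pr.Counter

open MeasureTheory Real

/-- probability densities on `ℝ`. -/
def IsDensity (f : ℝ → ℝ) : Prop := (∀ x, 0 ≤ f x) ∧ Integrable f ∧ ∫ x, f x = 1

/-- the normal density. -/
noncomputable def normal (a σ x : ℝ) : ℝ :=
  (2 * π * σ ^ 2) ^ (-(1 / 2) : ℝ) * exp (-(x - a) ^ 2 / (2 * σ ^ 2))

noncomputable def f0 (x : ℝ) : ℝ := exp (-(1 / 2) * x ^ 2) * (1 + cos (π / 2 * x))
noncomputable def G (v : ℝ) : ℝ := exp (-2 * v ^ 2)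
noncomputable def g0 (u : ℝ) : ℝ := exp (3 / 2 * u ^ 2) * (G (u + 3) + 2 * G (u + 2) +
  3 * G (u + 1) + 4 * G u + 3 * G (u - 1) + 2 * G (u - 2) + G (u - 3))

lemma dens {f : ℝ → ℝ} (h0 : ∀ x, 0 ≤ f x) (hi : Integrable f) (hc : Continuous f) (h1 : f 0 ≠ 0) :
    ∃ c > 0, IsDensity fun x => c * f x := by
  have := integral_pos_of_integrable_nonneg_nonzero hc hi h0 h1
  exact ⟨(∫ x, f x)⁻¹, inv_pos.2 this, fun x => mul_nonneg (inv_pos.2 this).le (h0 x),
    hi.const_mul _, by rw [integral_const_mul, inv_mul_cancel₀ this.ne']⟩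

lemma c0 (x : ℝ) : 0 ≤ 1 + cos x ∧ 1 + cos x ≤ 2 := by
  constructor <;> linarith [neg_one_le_cos x, cos_le_one x]

lemma f0_int : Integrable f0 :=
  (integrable_exp_neg_mul_sq (by norm_num : (0 : ℝ) < 1 / 2)).mul_bdd (c := 2) (by fun_prop)
    (ae_of_all _ fun x => by rw [norm_of_nonneg (c0 _).1]; exact (c0 _).2)

lemma eG (m : ℝ) : Integrable fun u => exp (3 / 2 * u ^ 2) * G (u - m) := by
  refine (((integrable_exp_neg_mul_sq (by norm_num : (0 : ℝ) < 1 / 2)).comp_sub_right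
    (4 * m)).const_mul (exp (6 * m ^ 2))).congr (ae_of_all _ fun u => ?_)
  simp only [G, ← exp_add]; congr 1; ring

lemma g0_int : Integrable g0 := by
  refine (((((((eG (-3)).add ((eG (-2)).const_mul 2)).add ((eG (-1)).const_mul 3)).add
    ((eG 0).const_mul 4)).add ((eG 1).const_mul 3)).add ((eG 2).const_mul 2)).add (eG 3)).congr
    (ae_of_all _ fun u => ?_)
  simp only [g0, Pi.add_apply, sub_neg_eq_add, sub_zero]; ring

noncomputable def T (x : Fin 3 → ℝ) (u : ℝ) : ℝ := ∏ j, (1 + cos (π / 2 * (x j - u)))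

lemma T_b (x : Fin 3 → ℝ) (u : ℝ) : ‖T x u‖ ≤ 8 := by
  rw [T, norm_of_nonneg (Finset.prod_nonneg fun j _ => (c0 _).1)]
  exact (Finset.prod_le_prod (fun j _ => (c0 _).1) fun j _ => (c0 _).2).trans (by norm_num)

lemma I1 (x : Fin 3 → ℝ) (m : ℝ) : Integrable fun v => (v + m) * G v * T x (v + m) := by
  refine Integrable.mul_bdd (c := 8) ?_ (by unfold T; fun_prop) (ae_of_all _ fun v => T_b _ _)
  exact ((integrable_mul_exp_neg_mul_sq two_pos).add
    ((integrable_exp_neg_mul_sq two_pos).const_mul m)).congr (ae_of_all _ fun v => by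
      simp only [G, Pi.add_apply]; ring)

lemma I2 (x : Fin 3 → ℝ) (m : ℝ) : Integrable fun u => u * G (u - m) * T x u := by
  simpa using (I1 x m).comp_sub_right m

lemma I3 (x : Fin 3 → ℝ) (m : ℝ) :
    ∫ u, u * G (u - m) * T x u = ∫ v, (v + m) * G v * T x (v + m) := by
  simpa using integral_sub_right_eq_self (fun v => (v + m) * G v * T x (v + m)) m

lemma key (x : Fin 3 → ℝ) : ∃ K, ∀ v, (v + -3) * T x (v + -3) + 2 * ((v + -2) * T x (v + -2)) +
    3 * ((v + -1) * T x (v + -1)) + 4 * ((v + 0) * T x (v + 0)) + 3 * ((v + 1) * T x (v + 1)) +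
    2 * ((v + 2) * T x (v + 2)) + (v + 3) * T x (v + 3) = K * v := by
  refine ⟨16 + 8 * (cos (π / 2 * (x 0 - x 1)) + cos (π / 2 * (x 0 - x 2)) +
    cos (π / 2 * (x 1 - x 2))), fun v => ?_⟩
  have e : ∀ a b : ℝ, cos (π / 2 * (a - b)) = cos (π / 2 * (a - v)) * cos (π / 2 * (b - v)) +
      sin (π / 2 * (a - v)) * sin (π / 2 * (b - v)) := fun a b => by
    rw [← cos_sub]; congr 1; ring
  have a1 : ∀ a, cos (π / 2 * (a - (v + 1))) = sin (π / 2 * (a - v)) := fun a => by
    rw [← cos_sub_pi_div_two]; congr 1; ring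
  have a2 : ∀ a, cos (π / 2 * (a - (v + 2))) = -cos (π / 2 * (a - v)) := fun a => by
    rw [← cos_sub_pi]; congr 1; ring
  have b1 : ∀ a, cos (π / 2 * (a - (v + -1))) = -sin (π / 2 * (a - v)) := fun a => by
    rw [← cos_add_pi_div_two]; congr 1; ring
  have b2 : ∀ a, cos (π / 2 * (a - (v + -2))) = -cos (π / 2 * (a - v)) := fun a => by
    rw [← cos_add_pi]; congr 1; ring
  have a3 : ∀ a, cos (π / 2 * (a - (v + 3))) = -sin (π / 2 * (a - v)) := fun a => by
    rw [← b1, ← cos_add_two_pi]; congr 1; ring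
  have b3 : ∀ a, cos (π / 2 * (a - (v + -3))) = sin (π / 2 * (a - v)) := fun a => by
    rw [← a1, ← cos_sub_two_pi]; congr 1; ring
  rw [e (x 0) (x 1), e (x 0) (x 2), e (x 1) (x 2)]
  simp only [T, Fin.prod_univ_three, a1, a2, a3, b1, b2, b3, add_zero]
  ring

theorem result : ∃ f g : ℝ → ℝ, IsDensity f ∧ IsDensity g ∧ (∀ x, 0 < g x) ∧
    (∃ c : ℝ, ∀ x : Fin 3 → ℝ, ∑ j, x j = 0 →
      Integrable (fun u => (u - c) * g u * ∏ j, f (x j - u)) ∧
        ∫ u, (u - c) * g u * ∏ j, f (x j - u) = 0) ∧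
    ∀ a σ, 0 < σ → ¬ f =ᵐ[volume] normal a σ := by
  have gp : ∀ u, 0 < g0 u := fun u => by unfold g0 G; positivity
  obtain ⟨a, ha, hf⟩ := dens (f := f0) (fun x => mul_nonneg (exp_pos _).le (c0 _).1) f0_int
    (by unfold f0; fun_prop) (by norm_num [f0])
  obtain ⟨b, hb, hg⟩ := dens (fun x => (gp x).le) g0_int (by unfold g0 G; fun_prop) (gp 0).ne'
  refine ⟨_, _, hf, hg, fun x => mul_pos hb (gp x), ⟨0, fun x hx => ?_⟩, fun m σ hσ h => ?_⟩
  · have e : (fun u => (u - 0) * (b * g0 u) * ∏ j, (a * f0 (x j - u))) = fun u =>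
        (b * a ^ 3 * exp (-(1 / 2) * (x 0 ^ 2 + x 1 ^ 2 + x 2 ^ 2))) *
        (u * G (u - -3) * T x u + 2 * (u * G (u - -2) * T x u) + 3 * (u * G (u - -1) * T x u) +
        4 * (u * G (u - 0) * T x u) + 3 * (u * G (u - 1) * T x u) + 2 * (u * G (u - 2) * T x u) +
        u * G (u - 3) * T x u) := by
      ext u
      rw [Fin.sum_univ_three] at hx
      have : exp (-(1 / 2) * (x 0 ^ 2 + x 1 ^ 2 + x 2 ^ 2)) = exp (3 / 2 * u ^ 2) *
          (exp (-(1 / 2) * (x 0 - u) ^ 2) * exp (-(1 / 2) * (x 1 - u) ^ 2) *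
          exp (-(1 / 2) * (x 2 - u) ^ 2)) := by
        simp only [← exp_add]; congr 1; linear_combination (-u) * hx
      simp only [this, g0, f0, T, Fin.prod_univ_three, sub_neg_eq_add, sub_zero]; ring
    rw [e]
    have i := I2 x
    have k := I1 x
    refine ⟨(((((((i _).add ((i _).const_mul 2)).add ((i _).const_mul 3)).add
      ((i _).const_mul 4)).add ((i _).const_mul 3)).add ((i _).const_mul 2)).add (i _)).const_mul _,
      ?_⟩
    obtain ⟨K, hK⟩ := key x
    have z : ∫ v, K * (v * G v) = 0 := by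
      rw [integral_const_mul, ← neg_eq_self, ← mul_neg, ← integral_neg,
        ← integral_neg_eq_self fun v => v * G v]
      simp [G]
    rw [integral_const_mul, integral_add, integral_add, integral_add, integral_add, integral_add,
      integral_add]
    any_goals fun_prop
    simp only [integral_const_mul, I3]
    simp only [← integral_const_mul]
    rw [← integral_add, ← integral_add, ← integral_add, ← integral_add, ← integral_add,
      ← integral_add, integral_congr_ae (g := fun v => K * (v * G v)), z, mul_zero]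
    any_goals fun_prop
    exact ae_of_all _ fun v => by linear_combination G v * hK v
  · have := congrFun ((Continuous.ae_eq_iff_eq volume (by unfold f0; fun_prop)
      (by unfold normal; fun_prop)).1 h) 2
    have p : 0 < normal m σ 2 := by unfold normal; positivity
    rw [← this] at p
    simp [f0] at p

end Pool.Agent.Results.MP_d643ae_pr.Counter
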